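import Pool.Agent.Helper36.GH.Defs

/-!
# GH, block B5: Nullstellensatz
-/

set_option autoImplicit false

namespace Pool.Agent.GH

theorem nullst {k K E : Type*} [Field k] [Field K] [Algebra k K] [Field E] [IsAlgClosed E] [Algebra k E]
    {σ : Type*} [Finite σ] (x : σ → K) (Q : MvPolynomial σ k) (hQ : MvPolynomial.aeval x Q ≠ 0) :
    ∃ y : σ → E, (∀ P : MvPolynomial σ k, MvPolynomial.aeval x P = 0 → MvPolynomial.aeval y P = 0) ∧
      MvPolynomial.aeval y Q ≠ 0 := by
  sorry

end Pool.Agent.GH
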