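import Pool.Agent.Helper36.GH.Step
import Pool.Agent.Helper36.GH.Null

/-!
# GH, block B7: the chain of specialisations

`u i = ∏ s, lin (ℓ i) (x s)`. `N` is the set of the `m` with `∑ m = 0` and `u ^ m ∈ k`.
PROOF. A state is `(K, x, A)` with `x s ≠ 0`, `Gen ℓ A (x 0)`, and `u ^ m = κ m` for all `m ∈ N` with support in `F(x) = {i | ∀ s, lin (ℓ i) (x s) ≠ 0}`; `Rk t`: any `t + 1` elements of `F(x)` support a nonzero `m ∈ N`. If `b ∈ F(x)` then the state `x'` of `step_gen` (all `x s` are divided by coordinates of largest valuation)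
has `F(x') ⊆ F(x)`, `b ∉ F(x')`, and `Rk t` gives `Rk (t - 1)` for `x'`: in a relation on `T' ∪ {b}` the coefficient of `b` is `0`, as `v(u' i) = 1` for `i ∈ T'` and `v(u' b) < 1`. After `n - 1` steps `card A = n - 1` and `Rk 2`. Then one more step for each `b ∈ F(x)` (`Rk 1`), with `V b = F(x b)`: for `i ≠ j` in `V b` one has `u i / u j ∈ k`. Take `b₁ ∈ F(x)`, `V₁ = V b₁`, `b₂ ∈ V₁`, `V₂ = V b₂`; they are disjoint; `V b = V₂` for `b ∈ V₁` and `V b = V₁` for `b ∈ V₂` (relation between `i ∈ V₁`, `j ∈ V₂`, `l ∈ V b`). If `card V₂ ≤ card V₁` take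
`V ⊆ V₁` and a bijection `ι : V → V₂`, otherwise exchange them. The points are moved to `k` by `nullst`.
-/

set_option autoImplicit false

namespace Pool.Agent.GH

universe u

theorem chain {k K : Type u} [Field k] [IsAlgClosed k] [Field K] [Algebra k K] {n q r : ℕ} (hn : 2 ≤ n)
    (hq : r * n + 2 ≤ q) (ℓ : Fin q → Fin (n + 1) → k) (hℓ : GenPos ℓ)
    (x : Fin r → Fin (n + 1) → K) (s₀ : Fin r) (hx : ∀ i s, lin (ℓ i) (x s) ≠ 0) (hgen : Gen ℓ ∅ (x s₀))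
    (hrk : ∀ T : Finset (Fin q), T.card = n + 2 → ∃ m : Fin q → ℤ, m ≠ 0 ∧ (∀ i, m i ≠ 0 → i ∈ T) ∧
      ∑ i, m i = 0 ∧ ∃ a : k, ∏ i, (∏ s, lin (ℓ i) (x s)) ^ m i = algebraMap k K a) :
    ∃ (A V : Finset (Fin q)) (ι : Fin q → Fin q), Adm n A V ι ∧ Bad k r ℓ A V ι := by
  sorry

end Pool.Agent.GH
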