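import Pool.Agent.Helper36.GH.Defs

/-!
# GH, block B2: the special arrangement

PROOF. Variables `X j i` (`j` a form, `i` a coordinate) and `t a b`. For `j ∉ V.image ι` let `m j = (X j i)_i`, and `m (ι b) = m b + ∑ a ∈ A, t a b • m a` for `b ∈ V` (forms over `ℤ[X, t]`). For `T` injective and not special `det (m (T i))_i ≠ 0` in `ℤ[X, t]`: one integral
point where it is not zero is: let `B2 = {b ∈ V | ι b ∈ T}`, `B1 = {b ∈ V | b ∈ T}`, `D = B1 ∩ B2`, `α = card (A ∩ T)`. Then `card D ≤ n - 1 - α`: it is clear if `D = ∅` (`card A = n - 1`); if `card D = 1` and `α = n - 1` then `T` is special; if `card D ≥ 2` use `α + 2 card D ≤ n + 1`.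
So there is an injection `ψ : D → A \ T`. Give different basis vectors to the forms `m j`, `j ∈ T \ V.image ι`, to the `m b`, `b ∈ B2 \ B1`, and to the `m (ψ b)`, `b ∈ D`; all other `m j` are `0`; `t (ψ b) b = 1` for `b ∈ D`, all other `t` are `0`. The rows are then different basis vectors
except that the row of `ι b`, `b ∈ D`, is `m b + m (ψ b)`, where `m b` is also a row: the determinant is `± 1`. The product of these finitely many polynomials is not zero, so there is an integral point where it does not vanish (`MvPolynomial.funext`).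
(Any other proof is fine, e.g. induction, or linear algebra over a field instead of explicit determinants.)
-/

set_option autoImplicit false

namespace Pool.Agent.GH

theorem spec {n q : ℕ} (hn : 2 ≤ n) (A V : Finset (Fin q)) (ι : Fin q → Fin q) (hA : Adm n A V ι) :
    ∃ ℓ₀ : Fin q → Fin (n + 1) → ℤ,
      (∀ T : Fin (n + 1) → Fin q, Function.Injective T → ¬ Special A V ι T →
        (Matrix.of fun i j => ℓ₀ (T i) j).det ≠ 0) ∧
      ∀ b ∈ V, ∃ α : Fin q → ℤ, ∀ j, ℓ₀ (ι b) j = ∑ a ∈ insert b A, α a * ℓ₀ a j := by
  sorry

end Pool.Agent.GH
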