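import Pool.Agent.Helper36.GH.Defs

/-!
# GH, block B3: valuation rings

PROOF. `A = f.range`, `P = {f r | θ r = 0}` a prime ideal of `A` (well defined by `h`), `LocalSubring.ofPrime A P`, `LocalSubring.exists_le_valuationSubring`.
-/

set_option autoImplicit false

namespace Pool.Agent.GH

theorem exists_val {K R B : Type*} [Field K] [CommRing R] [CommRing B] [IsDomain B] (f : R →+* K)
    (θ : R →+* B) (h : ∀ r, f r = 0 → θ r = 0) :
    ∃ O : ValuationSubring K, (∀ r, f r ∈ O) ∧ ∀ r, O.valuation (f r) < 1 ↔ θ r = 0 := by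
  sorry

end Pool.Agent.GH
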