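import Pool.Agent.Helper36.GH.Deg
import Pool.Agent.Helper36.GH.Spec
import Pool.Agent.Helper36.GH.Val

/-!
# GH, block B4: bad arrangements are in a hypersurface

PROOF. Otherwise for every `Φ ≠ 0` there is a bad `ℓ` (with some `A, V, ι`) with `Φ(ℓ) ≠ 0`. `Q i` a sequence of nonzero polynomials such that every nonzero polynomial divides `Q i` for large `i` (products of an enumeration; as `UP.KF.exists_seq`), `ℓ i` bad with `Q i (ℓ i) ≠ 0`, with `A i, V i, ι i`, `U` a nonprincipal
ultrafilter on `ℕ`; `A, V, ι` are constant on a set of `U` (finitely many values). `K = (U : Filter ℕ).Germ ℂ`. The germ `L` of the `ℓ i` is bad for `A, V, ι` over `K` (take germs of `x`, `c`; `s₀` is constant on a set of `U`; the `s` with `lin (ℓ j) (x b s) = 0` is constant too), and `aeval L : ℤ[X] → K` is injective.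
`spec` gives `ℓ₀`; `exists_val` with `f = aeval L`, `θ = aeval ℓ₀ : ℤ[X] → ℤ` gives `O`; `L` has coordinates in `O`; for a polynomial `P` over `ℤ` the residue of `P(L)` is `0` iff `P(ℓ₀) = 0`. So the residue of `L` has the properties `h1`, `h2` of `not_bad`: contradiction.
-/

set_option autoImplicit false

namespace Pool.Agent.GH

theorem exists_poly {n q r : ℕ} (hn : 2 ≤ n) (hq : r * n + 2 ≤ q) :
    ∃ Φ : MvPolynomial (Fin q × Fin (n + 1)) ℤ, Φ ≠ 0 ∧
      ∀ (ℓ : Fin q → Fin (n + 1) → ℂ) (A V : Finset (Fin q)) (ι : Fin q → Fin q), Adm n A V ι →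
        Bad (k := ℂ) ℂ r ℓ A V ι → MvPolynomial.aeval (fun p : Fin q × Fin (n + 1) => ℓ p.1 p.2) Φ = 0 := by
  sorry

end Pool.Agent.GH
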