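import Pool.Agent.Helper36.GH.Defs
import Pool.Agent.Helper16.SL.Defs

/-!
# GH, block B8: enlarging the constants

PROOF. (*) Units of `D.R` (in `Ω`) which are multiplicatively independent modulo `k^*` are algebraically independent over `k`: the monomials in them are units, pairwise not proportional over `k`, so linearly independent (`D.indep`; `Ω → E = AlgebraicClosure Ω` is injective). `M = {∏ u i ^ m i | ∑ m = 0} ⊆ E`.
`B ⊆ M` a maximal subset which is algebraically independent over `k(y)` (`exists_isTranscendenceBasis_between` or Zorn), so the elements of `M` are algebraic over `k(y)(B)`. `k'` = the algebraic closure of `k(B)` in `E` (`(algebraicClosure (adjoin k B) E).restrictScalars k`), algebraically closed as `E` is. `y` is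
algebraically independent over `k(B)` (both orders of the union), so over `k'`. `T` with `n + 2` elements, `i₀ ∈ T`: if no relation exists then the `w i = u i / u i₀`, `i ∈ T \ i₀` (`n + 1` elements) are multiplicatively independent modulo `k'^*`, so `B` and the `w i` together are multiplicatively independent
modulo `k^*`, so by (*) algebraically independent over `k`; so the `w i` are algebraically independent over `k(B)`, but they are algebraic over `k(B)(y_1, …, y_n)`: `n + 1 ≤ n`, contradiction.
-/

set_option autoImplicit false

namespace Pool.Agent.GH

universe u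

theorem constants {k Ω : Type u} [Field k] [Field Ω] [Algebra k Ω] (D : SL.Dat k Ω) {n q : ℕ}
    (w : Fin q → Ω) (hw : ∀ i, D.U (w i)) (y : Fin n → Ω) (hy : AlgebraicIndependent k y) :
    ∃ k' : IntermediateField k (AlgebraicClosure Ω), IsAlgClosed k' ∧
      AlgebraicIndependent k' (fun i => algebraMap Ω (AlgebraicClosure Ω) (y i)) ∧
      ∀ T : Finset (Fin q), T.card = n + 2 → ∃ m : Fin q → ℤ, m ≠ 0 ∧ (∀ i, m i ≠ 0 → i ∈ T) ∧ ∑ i, m i = 0 ∧
        ∏ i, (algebraMap Ω (AlgebraicClosure Ω) (w i)) ^ m i ∈ k' := by
  sorry

end Pool.Agent.GH
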