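import Pool.Agent.Helper36.GH.Defs

/-!
# GH, block B1a: at most `r n + 1` of the forms vanish at some of the `r` points

PROOF. `Z s = {j | lin (m j) (x s) = 0}`. If `T : Fin (n + 1) → Fin q` is injective with values in `Z s` then the matrix kills `x s ≠ 0`, so its determinant is `0`, so `T` is special
(`h1`): its image is `A ∪ {b, ι b}`. So `card (Z s) ≤ n + 1`, and `A ⊆ Z s` if there is equality: otherwise take `T'` from `T` by replacing an element `a` of `A` (`A` is not empty as `n ≥ 2`) by an element of `Z s` outside the image of `T`;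
`T'` is special but does not contain `a`. If all `card (Z s) ≤ n` the union has at most `r n` elements; if `t ≥ 1` of them have `n + 1` then the union has at most `(n - 1) + 2 t + n (r - t) ≤ r n + 1` elements.
-/

set_option autoImplicit false

namespace Pool.Agent.GH

theorem cover {κ : Type*} [Field κ] {n q r : ℕ} (hn : 2 ≤ n) (m : Fin q → Fin (n + 1) → κ)
    (A V : Finset (Fin q)) (ι : Fin q → Fin q) (hA : Adm n A V ι)
    (h1 : ∀ T : Fin (n + 1) → Fin q, Function.Injective T → ¬ Special A V ι T →
      (Matrix.of fun i j => m (T i) j).det ≠ 0)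
    (x : Fin r → Fin (n + 1) → κ) (hx : ∀ s, x s ≠ 0) :
    ∀ W : Finset (Fin q), (∀ j ∈ W, ∃ s, ∑ i, m j i * x s i = 0) → W.card ≤ r * n + 1 := by
  sorry

end Pool.Agent.GH
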