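import Mathlib

/-!
# Project GH: definitions

Linear forms in `n + 1` variables, `q` of them, with coefficients in a field `k`; points with coordinates in an extension `K` of `k`.
-/

set_option autoImplicit false

namespace Pool.Agent.GH

/-- The value at `x` of the linear form with coefficients `ℓ`. -/
def lin {k K : Type*} [Field k] [Field K] [Algebra k K] {d : ℕ} (ℓ : Fin d → k) (x : Fin d → K) : K :=
  ∑ j, algebraMap k K (ℓ j) * x j

/-- Any `n + 1` of the linear forms are linearly independent. -/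
def GenPos {k : Type*} [Field k] {n q : ℕ} (ℓ : Fin q → Fin (n + 1) → k) : Prop :=
  ∀ f : Fin (n + 1) → Fin q, Function.Injective f → (Matrix.of fun i j => ℓ (f i) j).det ≠ 0

/-- `A` has `n - 1` elements, `ι` is injective on `V ≠ ∅`, and `A`, `V`, `ι V` are disjoint. -/
structure Adm (n : ℕ) {q : ℕ} (A V : Finset (Fin q)) (ι : Fin q → Fin q) : Prop where
  card : A.card + 1 = n
  ne : V.Nonempty
  inj : Set.InjOn ι V
  disjAV : Disjoint A V
  disjAW : Disjoint A (V.image ι)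
  disjVW : Disjoint V (V.image ι)

/-- Bad arrangements. -/
def Bad {k : Type*} (K : Type*) [Field k] [Field K] [Algebra k K] {n q : ℕ} (r : ℕ)
    (ℓ : Fin q → Fin (n + 1) → k) (A V : Finset (Fin q)) (ι : Fin q → Fin q) : Prop :=
  ∃ (x : Fin q → Fin r → Fin (n + 1) → K) (c : Fin q → K) (s₀ : Fin r),
    (∀ b ∈ V, ∀ s, x b s ≠ 0) ∧
    (∀ b ∈ V, ∀ a ∈ insert b A, lin (ℓ a) (x b s₀) = 0) ∧
    (∀ b ∈ V, ∀ j, j ∉ V.image ι → ∃ s, lin (ℓ j) (x b s) = 0) ∧
    (∀ i ∈ V.image ι, c i ≠ 0 ∧ ∀ b ∈ V, ∏ s, lin (ℓ i) (x b s) = c i)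

/-- `T` is one of the sets `A ∪ {b, ι b}`, `b ∈ V`. -/
def Special {n q : ℕ} (A V : Finset (Fin q)) (ι : Fin q → Fin q) (T : Fin (n + 1) → Fin q) : Prop :=
  ∃ b ∈ V, ∀ a ∈ insert b (insert (ι b) A), ∃ j, T j = a

/-- A place of `K` over `k` with values in `K'`. -/
structure Place (k K K' : Type*) [Field k] [Field K] [Field K'] [Algebra k K] [Algebra k K'] where
  O : ValuationSubring K
  π : O →+* K'
  mem : ∀ a : k, algebraMap k K a ∈ O
  map : ∀ a : k, π ⟨algebraMap k K a, mem a⟩ = algebraMap k K' a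
  ker : ∀ z : O, π z = 0 ↔ O.valuation (z : K) < 1

/-- `x` is a generic point over `k` of the linear space where the forms `ℓ a`, `a ∈ A`, vanish. -/
def Gen {k K : Type*} [Field k] [Field K] [Algebra k K] {n q : ℕ} (ℓ : Fin q → Fin (n + 1) → k)
    (A : Finset (Fin q)) (x : Fin (n + 1) → K) : Prop :=
  x ≠ 0 ∧ (∀ a ∈ A, lin (ℓ a) x = 0) ∧
    ∀ (P : MvPolynomial (Fin (n + 1)) k) (e : ℕ), P.IsHomogeneous e → MvPolynomial.aeval x P = 0 →
      ∀ z : Fin (n + 1) → k, (∀ a ∈ A, lin (ℓ a) z = 0) → MvPolynomial.aeval z P = 0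

end Pool.Agent.GH
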