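import Pool.Agent.Helper36.GH.Cover

/-!
# GH, block B1b: an arrangement with a place where it degenerates in the special way is not bad

PROOF. Let `x, c, s₀` be as in `Bad`. For `b ∈ V` and all `s` let `μ b s` be a coordinate of `x b s` with the largest valuation (`≠ 0`), `x b s = μ b s • x' b s` with `x' b s` in `O`, one coordinate of `x' b s` is `1`, so its residue
`x'' b s` is not zero. `M b = ∏ s, μ b s`. For `i ∈ V.image ι`: `v (c i) = v (M b) * v (∏ s, lin (ℓ' i) (x' b s)) ≤ v (M b)`, with equality iff no residue `∑ i, m i * x'' b s` vanishes, `m = ` residue of `ℓ'`.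
By `cover` the forms `m j` which vanish at some `x'' b s` are at most `r n + 1 < q`; they contain all `j ∉ V.image ι`. So there is `j ∈ V.image ι` with `v (c j) = v (M b)`. By `h2` and `lin (ℓ a) (x b s₀) = 0` for `a ∈ insert b A`,
`m (ι b)` vanishes at `x'' b s₀`: `v (c (ι b)) < v (M b) = v (c j)`, `j = ι b'`. This contradicts the choice of `b ∈ V` with `v (c (ι b))` largest (`Finset.exists_max_image`).
-/

set_option autoImplicit false

namespace Pool.Agent.GH

theorem not_bad {K : Type*} [Field K] {n q r : ℕ} (hn : 2 ≤ n) (hq : r * n + 2 ≤ q)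
    (ℓ : Fin q → Fin (n + 1) → K) (A V : Finset (Fin q)) (ι : Fin q → Fin q) (hA : Adm n A V ι)
    (O : ValuationSubring K) (ℓ' : Fin q → Fin (n + 1) → O) (hℓ : ∀ i j, ((ℓ' i j : O) : K) = ℓ i j)
    (h1 : ∀ T : Fin (n + 1) → Fin q, Function.Injective T → ¬ Special A V ι T →
      (Matrix.of fun i j => IsLocalRing.residue O (ℓ' (T i) j)).det ≠ 0)
    (h2 : ∀ b ∈ V, ∃ α : Fin q → IsLocalRing.ResidueField O, ∀ j,
      IsLocalRing.residue O (ℓ' (ι b) j) = ∑ a ∈ insert b A, α a * IsLocalRing.residue O (ℓ' a j)) :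
    ¬ Bad (k := K) K r ℓ A V ι := by
  sorry

end Pool.Agent.GH
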