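import Pool.Agent.Helper36.GH.Defs
import Pool.Agent.Helper16.SL.Units

/-!
# GH, block B9: points with bounded counting function

PROOF. As `Pool/Agent/Helper16/SL/Units.lean` (`main_ineq` holds in all dimensions and degrees): there is `N ≠ 0` such that for all finite places `w` of `L = fld y` with `w N = 1` all `|ℓ i (crd y)|_w` are equal to the maximum of the `|crd y j|_w`. The `t i = ℓ i (crd y)`: `t i / t i₀` is an `N`-unit of `L`.
`x s = σ_s (crd y) / σ_s (t i₀)` for the `r` embeddings `σ_s` of `L` over `k` in the algebraic closure (`σ_0` the inclusion), `∏ s, lin (ℓ i) (x s) = Norm (t i / t i₀)`.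
-/

set_option autoImplicit false

namespace Pool.Agent.GH

open NumberField IntermediateField Pool.Agent.Helper64.Vojta Pool.Agent.VZ

universe u

theorem units {k : Type u} [Field k] [NumberField k] (S : Finset (Pl k)) {n q : ℕ} (hq : 0 < q)
    (ℓ : Fin q → Fin (n + 1) → k) (hℓ : ∀ i, ℓ i ≠ 0) (C : ℝ) (r : ℕ) :
    ∃ T : Finset (FinitePlace k), ∀ y : Fin n → AlgebraicClosure k, dg y = r + 1 →
      (∀ i, ∑ j, algebraMap k (fld y) (ℓ i j) * crd y j ≠ 0) → q * hgt y - C ≤ lam ℓ S y →
      ∃ (x : Fin (r + 1) → Fin (n + 1) → AlgebraicClosure k) (μ : AlgebraicClosure k), μ ≠ 0 ∧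
        (x 0 = fun j => μ * Fin.cons (α := fun _ => AlgebraicClosure k) 1 y j) ∧
        ∀ i, SL.TUnit T (∏ s, lin (ℓ i) (x s)) := by
  sorry

end Pool.Agent.GH
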