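import Pool.Agent.Helper36.GH.Comp
import Pool.Agent.Helper36.GH.Chain
import Pool.Agent.Helper36.GH.Cons
import Pool.Agent.Helper36.GH.Unit
import Pool.Agent.Helper16.SL.Germs
import Pool.Agent.Helper16.UP.KForm

/-!
# GH, block B10: the theorem
-/

set_option autoImplicit false

namespace Pool.Agent.GH

open NumberField IntermediateField Pool.Agent.Helper64.Vojta Pool.Agent.VZ

universe u

theorem main {n q r : ℕ} (hn : 2 ≤ n) (hq : r * n + 2 ≤ q) :
    ∃ Φ : MvPolynomial (Fin q × Fin (n + 1)) ℤ, Φ ≠ 0 ∧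
      ∀ (k : Type u) [Field k] [NumberField k] (S : Finset (Pl k)), (∀ v : InfinitePlace k, Sum.inl v ∈ S) →
      ∀ ℓ : Fin q → Fin (n + 1) → k, MvPolynomial.aeval (fun p : Fin q × Fin (n + 1) => ℓ p.1 p.2) Φ ≠ 0 →
      ∀ C : ℝ, ∃ P : MvPolynomial (Fin n) k, P ≠ 0 ∧ ∀ y : Fin n → AlgebraicClosure k, dg y ≤ r →
        (∀ i, ∑ j, algebraMap k (fld y) (ℓ i j) * crd y j ≠ 0) → q * hgt y - C ≤ lam ℓ S y →
        MvPolynomial.aeval y P = 0 := by
  sorry

end Pool.Agent.GH
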