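import Pool.Agent.Helper36.GH.Val

/-!
# GH, block B6: specialisation of a generic point

PROOF. `n - card A ≥ 1`. Choose a form `g` over `k` (one of the `ℓ j`, or any) such that `A ∪ {b}` and `g` are linearly independent (`card A + 1 ≤ n`), `s = g(x) ≠ 0` (`Gen` for `P = g`: `g` does not vanish on the space `Λ` of the `z` with `ℓ a (z) = 0` for `a ∈ A`).
`Λ'` = the space of the `z` with `ℓ a (z) = 0`, `a ∈ insert b A`; `z₀ ∈ Λ'` with `g(z₀) = 1`, `e_1, …, e_t` a basis of (or any finite spanning family for) `{z ∈ Λ' | g(z) = 0}`. `f : MvPolynomial (Fin (n+1)) k → K`, `P ↦ P(x / s)`; `θ : MvPolynomial (Fin (n+1)) k → MvPolynomial (Fin t) k`,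
`P ↦ P(z₀ + ∑ X_i e_i)`. If `f P = 0` then the homogenisation `∑_e P_e g^(N - e)` vanishes at `x`, so on `Λ`, so `P(z) = 0` for `z ∈ Λ`, `g(z) = 1`, so `θ P = 0` (`k` infinite). `exists_val` gives `O`, `K' = ResidueField O`, `μ = s`. `x / s` is in `O`, `g(x / s) = 1`, so its residue `x'` is not `0`; `ℓ a (x / s)` is in the maximal ideal
for `a ∈ insert b A`. `Gen`: if `P` is homogeneous and `P(x') = 0` then `P(x / s)` is in the maximal ideal, `θ P = 0`, `P(z) = 0` for all `z ∈ Λ'` with `g(z) = 1`, so with `g(z) ≠ 0`, so for all `z ∈ Λ'` (`k` infinite; `P(z + τ z₀)` is a polynomial in `τ` which vanishes for all `τ ≠ - g(z)`).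
-/

set_option autoImplicit false

namespace Pool.Agent.GH

universe u

theorem step_gen {k K : Type u} [Field k] [Infinite k] [Field K] [Algebra k K] {n q : ℕ}
    (ℓ : Fin q → Fin (n + 1) → k) (A : Finset (Fin q)) (hA : A.card + 1 ≤ n) (b : Fin q)
    (x : Fin (n + 1) → K) (hx : Gen ℓ A x) :
    ∃ (K' : Type u) (_ : Field K') (_ : Algebra k K') (p : Place k K K') (μ : K) (_ : μ ≠ 0)
      (hm : ∀ j, x j / μ ∈ p.O), Gen ℓ (insert b A) fun j => p.π ⟨x j / μ, hm j⟩ := by
  sorry

end Pool.Agent.GH
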